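import Mathlib
import Pool.Agent.Q95.Disc

/-!
# Atomic block Hardy spaces for martingales, `0 < p < 1`: both questions have a negative answer

The index `k = 0, 1, 2, …` stands for the index `1, 2, 3, …` of the problem.
-/

open MeasureTheory Set Filter
open scoped ENNReal NNReal Topology

noncomputable section

namespace Pool.Agent.Results.MP_fbca0c_an.AtomicBlocks

section definitions

variable {Ω : Type} [m : MeasurableSpace Ω] (μ : Measure Ω) (ℱ : Filtration ℕ m)

/-- martingale differences `df_k` -/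
def mdiff (f : Ω → ℂ) : ℕ → Ω → ℂ
  | 0 => μ[f | ℱ 0]
  | k + 1 => μ[f | ℱ (k + 1)] - μ[f | ℱ k]

/-- `‖f‖_{H_p} = ‖(∑ |df_k|²)^{1/2}‖_p` -/
def hpNorm (p : ℝ) (f : Ω → ℂ) : ℝ≥0∞ :=
  (∫⁻ ω, (∑' k, ‖mdiff μ ℱ f k ω‖ₑ ^ 2) ^ (p / 2) ∂μ) ^ (1 / p)

/-- A representation `b = ∑ λ_j a_j` of an atomic block. -/
structure IsRep (p q : ℝ) (b : Ω → ℂ) (k : ℕ) (lam : ℕ → ℂ) (a : ℕ → Ω → ℂ) (kk : ℕ → ℕ)
    (A : ℕ → Set Ω) : Prop where
  cond : μ[b | ℱ k] =ᵐ[μ] 0
  le : ∀ j, k ≤ kk j
  meas : ∀ j, MeasurableSet[ℱ (kk j)] (A j)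
  supp : ∀ j, Function.support (a j) ⊆ A j
  aesm : ∀ j, AEStronglyMeasurable (a j) μ
  size : ∀ j, eLpNorm (a j) (ENNReal.ofReal q) μ ≤
    μ (A j) ^ (1 - 1 / p - (1 - 1 / q)) * ((kk j - k + 1 : ℕ) : ℝ≥0∞)⁻¹
  conv : Tendsto (fun n => eLpNorm (b - ∑ j ∈ Finset.range n, lam j • a j) (ENNReal.ofReal p) μ)
    atTop (𝓝 0)

/-- `(p,q)`-atomic blocks -/
def IsBlock (p q : ℝ) (b : Ω → ℂ) : Prop :=
  Integrable b μ ∧ (AEStronglyMeasurable[ℱ 0] b μ ∨ ∃ k lam a kk A, IsRep μ ℱ p q b k lam a kk A)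

open Classical in
/-- the size `|b|` of a block -/
def blockNorm (p q : ℝ) (b : Ω → ℂ) : ℝ≥0∞ :=
  if AEStronglyMeasurable[ℱ 0] b μ then eLpNorm b (ENNReal.ofReal p) μ
  else ⨅ (k) (lam) (a) (kk) (A) (_ : IsRep μ ℱ p q b k lam a kk A), ∑' j, ‖lam j‖ₑ

/-- the atomic quasi-norm -/
def atbNorm (p q : ℝ) (f : Ω → ℂ) : ℝ≥0∞ :=
  ⨅ (b : ℕ → Ω → ℂ) (_ : ∀ i, IsBlock μ ℱ p q (b i))
    (_ : Tendsto (fun n => eLpNorm (f - ∑ i ∈ Finset.range n, b i) (ENNReal.ofReal p) μ)
      atTop (𝓝 0)), (∑' i, blockNorm μ ℱ p q (b i) ^ p) ^ (1 / p)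

/-- the norm of the Lipschitz class `Λ_{p,q}` -/
def lipNorm (p q : ℝ) (g : Ω → ℂ) : ℝ≥0∞ :=
  ⨆ (k : ℕ) (A : Set Ω) (_ : MeasurableSet[ℱ k] A) (_ : μ A ≠ 0),
    μ A ^ (1 - 1 / p) * (((μ A)⁻¹ * ∫⁻ ω in A, ‖g ω - (μ[g | ℱ k]) ω‖ₑ ^ q ∂μ) ^ (1 / q) +
      eLpNorm (mdiff μ ℱ g k) ⊤ μ)

/-- the smaller variant of `lipNorm` in which `‖dg_k‖_∞` is taken on `A` only -/
def lipNormLoc (p q : ℝ) (g : Ω → ℂ) : ℝ≥0∞ :=
  ⨆ (k : ℕ) (A : Set Ω) (_ : MeasurableSet[ℱ k] A) (_ : μ A ≠ 0),
    μ A ^ (1 - 1 / p) * (((μ A)⁻¹ * ∫⁻ ω in A, ‖g ω - (μ[g | ℱ k]) ω‖ₑ ^ q ∂μ) ^ (1 / q) +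
      eLpNorm (mdiff μ ℱ g k) ⊤ (μ.restrict A))

/-- continuous linear functionals on `H_p(Ω)`, given by their restriction to `L_∞(Ω)` -/
structure IsFunctional (p : ℝ) (Φ : (Ω → ℂ) → ℂ) : Prop where
  add : ∀ f g, MemLp f ⊤ μ → MemLp g ⊤ μ → Φ (f + g) = Φ f + Φ g
  smul : ∀ (c : ℂ) f, MemLp f ⊤ μ → Φ (c • f) = c * Φ f
  bound : ∃ C : ℝ≥0, ∀ f, MemLp f ⊤ μ → ‖Φ f‖ₑ ≤ C * hpNorm μ ℱ p f

end definitions

/-! ### The probability spaces -/

open Q95.Disc

/-- the space `ℕ × Bool` -/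
abbrev X := ℕ × Bool

/-- weights for the first question -/
def w1 (x : X) : ℝ≥0∞ := (1 / 2) ^ (x.1 + 2)

/-- filtration for the first question: trivial, generated by the second coordinate, everything -/
def F1 : Filtration ℕ (inferInstance : MeasurableSpace X) where
  seq
    | 0 => ⊥
    | 1 => MeasurableSpace.comap Prod.snd inferInstance
    | _ + 2 => inferInstance
  mono' := by
    intro i j hij
    match i, j with
    | 0, _ => exact bot_le
    | 1, 0 => omega
    | 1, 1 => exact le_rfl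
    | 1, _ + 2 => exact measurable_snd.comap_le
    | _ + 2, 0 => omega
    | _ + 2, 1 => omega
    | _ + 2, _ + 2 => exact le_rfl
  le' := by
    intro i
    match i with
    | 0 => exact bot_le
    | 1 => exact measurable_snd.comap_le
    | _ + 2 => exact le_rfl

/-- weights for the second question: `β_n ε_n` and `β_n (1 - ε_n)` with `β_n = 2^{-n-1}` and
`ε_n = 1/(n+2)` -/
def w2 (x : X) : ℝ≥0∞ :=
  (1 / 2) ^ (x.1 + 1) * (if x.2 then ((x.1 : ℝ≥0∞) + 2)⁻¹ else ((x.1 : ℝ≥0∞) + 1) / (x.1 + 2))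

/-- filtration for the second question: generated by the first coordinate, everything -/
def F2 : Filtration ℕ (inferInstance : MeasurableSpace X) where
  seq
    | 0 => MeasurableSpace.comap Prod.fst inferInstance
    | _ + 1 => inferInstance
  mono' := by
    intro i j hij
    match i, j with
    | 0, 0 => exact le_rfl
    | 0, _ + 1 => exact measurable_fst.comap_le
    | _ + 1, 0 => omega
    | _ + 1, _ + 1 => exact le_rfl
  le' := by
    intro i
    match i with
    | 0 => exact measurable_fst.comap_le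
    | _ + 1 => exact le_rfl

lemma w1_ne (x : X) : w1 x ≠ 0 := by
  unfold w1
  exact pow_ne_zero _ (by norm_num)

lemma geom_half : ∑' n : ℕ, (1 / 2 : ℝ≥0∞) ^ (n + 1) = 1 := by
  simp_rw [pow_succ]
  rw [ENNReal.tsum_mul_right, ENNReal.tsum_geometric]
  have : (1 : ℝ≥0∞) - 1 / 2 = 1 / 2 := by
    rw [one_div]; exact ENNReal.one_sub_inv_two
  rw [this]
  exact ENNReal.inv_mul_cancel (by norm_num) (by norm_num)

lemma w1_sum : ∑' x, w1 x = 1 := by
  rw [ENNReal.tsum_prod']
  rw [← geom_half]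
  apply tsum_congr
  intro n
  rw [tsum_bool]
  simp only [w1]
  rw [← two_mul, pow_succ (1 / 2 : ℝ≥0∞) (n + 1), mul_comm, mul_assoc]
  rw [show (1 / 2 : ℝ≥0∞) * 2 = 1 by rw [one_div]; exact ENNReal.inv_mul_cancel (by norm_num) (by norm_num)]
  rw [mul_one]

lemma w2_ne (x : X) : w2 x ≠ 0 := by
  unfold w2
  apply mul_ne_zero
  · exact pow_ne_zero _ (by norm_num)
  · split_ifs
    · exact ENNReal.inv_ne_zero.mpr (by finiteness)
    · apply ENNReal.div_ne_zero.mpr
      exact ⟨by positivity, by finiteness⟩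

lemma w2_sum : ∑' x, w2 x = 1 := by
  rw [ENNReal.tsum_prod']
  rw [← geom_half]
  apply tsum_congr
  intro n
  rw [tsum_bool]
  simp only [w2, if_true, Bool.false_eq_true, if_false]
  rw [← mul_add]
  have : ((n : ℝ≥0∞) + 1) / (n + 2) + ((n : ℝ≥0∞) + 2)⁻¹ = 1 := by
    rw [← one_div ((n : ℝ≥0∞) + 2), ← ENNReal.add_div, add_assoc, one_add_one_eq_two]
    exact ENNReal.div_self (by positivity) (by finiteness)
  rw [this, mul_one]

instance : IsProbabilityMeasure (dm w1) := isProb w1_sum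
instance : IsProbabilityMeasure (dm w2) := isProb w2_sum

/-! ### First question -/

lemma sup_F1 : ⨆ k, (F1 k) = (inferInstance : MeasurableSpace X) :=
  le_antisymm (iSup_le fun k => F1.le k) (le_iSup (fun k => F1 k) 2)

lemma sup_F2 : ⨆ k, (F2 k) = (inferInstance : MeasurableSpace X) :=
  le_antisymm (iSup_le fun k => F2.le k) (le_iSup (fun k => F2 k) 1)

/-- the height `c = δ^{-1/p}` of the atoms, `δ = 2^{-n-2}` -/
def hgt (p : ℝ) (n : ℕ) : ℝ := ((1 / 2 : ℝ) ^ (n + 2)) ^ (-(1 / p))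

lemma hgt_pos (p : ℝ) (n : ℕ) : 0 < hgt p n := by
  unfold hgt; positivity

/-- one atom -/
def atm (p : ℝ) (n : ℕ) (s : Bool) : X → ℂ := indicator {(n, s)} fun _ => (hgt p n : ℂ) / 3

/-- the block -/
def blk (p : ℝ) (n : ℕ) : X → ℂ := (3 : ℂ) • atm p n true + (-3 : ℂ) • atm p n false

lemma integrable_disc {w : X → ℝ≥0∞} [IsProbabilityMeasure (dm w)] {f : X → ℂ} {C : ℝ}
    (hf : ∀ x, ‖f x‖ ≤ C) : Integrable f (dm w) :=
  Integrable.of_bound (Measurable.of_discrete).aestronglyMeasurable C (Eventually.of_forall hf)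

lemma integrable_atm (p : ℝ) (n : ℕ) (s : Bool) : Integrable (atm p n s) (dm w1) := by
  unfold atm
  exact (integrable_const _).indicator (MeasurableSet.of_discrete)

lemma integrable_blk (p : ℝ) (n : ℕ) : Integrable (blk p n) (dm w1) :=
  ((integrable_atm p n true).smul _).add ((integrable_atm p n false).smul _)

lemma w1_real (n : ℕ) (s : Bool) : (dm w1).real {(n, s)} = (1 / 2) ^ (n + 2) := by
  rw [measureReal_def, dm_singleton]
  simp [w1]

lemma setIntegral_atm (p : ℝ) (n : ℕ) (s : Bool) (S : Set X) :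
    ∫ x in S, atm p n s x ∂(dm w1) =
      ((dm w1).restrict S).real {(n, s)} • ((hgt p n : ℂ) / 3) := by
  unfold atm
  rw [integral_indicator_const _ (MeasurableSet.of_discrete)]

lemma integral_blk_zero (p : ℝ) (n : ℕ) : ∫ x, blk p n x ∂(dm w1) = 0 := by
  have e := integral_add (μ := dm w1) (f := fun x => (3 : ℂ) • atm p n true x)
    (g := fun x => (-3 : ℂ) • atm p n false x) ((integrable_atm p n true).smul (3 : ℂ))
    ((integrable_atm p n false).smul (-3 : ℂ))
  have e' : ∫ x, blk p n x ∂(dm w1) =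
      ∫ x, ((3 : ℂ) • atm p n true x + (-3 : ℂ) • atm p n false x) ∂(dm w1) := rfl
  rw [e', e, integral_smul, integral_smul]
  have h : ∀ s, ∫ x, atm p n s x ∂(dm w1) = ((1 / 2 : ℝ) ^ (n + 2)) • ((hgt p n : ℂ) / 3) := by
    intro s
    have := setIntegral_atm p n s univ
    rw [Measure.restrict_univ, w1_real] at this
    exact this
  rw [h, h]
  simp

lemma condExp0_blk (p : ℝ) (n : ℕ) : (dm w1)[blk p n | F1 0] = fun _ => 0 := by
  have : (F1 0 : MeasurableSpace X) = ⊥ := rfl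
  rw [this, condExp_bot, integral_blk_zero]

/-- the representation of the block -/
lemma isRep_blk {p q : ℝ} (hq : 1 < q) (n : ℕ) :
    IsRep (dm w1) F1 p q (blk p n) 0 (fun j => if j = 0 then 3 else if j = 1 then -3 else 0)
      (fun j => if j = 0 then atm p n true else if j = 1 then atm p n false else 0)
      (fun _ => 2)
      (fun j => if j = 0 then {(n, true)} else if j = 1 then {(n, false)} else ∅) := by
  have hsize : ∀ s, eLpNorm (atm p n s) (ENNReal.ofReal q) (dm w1) ≤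
      (dm w1) {(n, s)} ^ (1 - 1 / p - (1 - 1 / q)) * ((2 - 0 + 1 : ℕ) : ℝ≥0∞)⁻¹ := by
    intro s
    unfold atm
    rw [eLpNorm_indicator_const (MeasurableSet.of_discrete)
      (ENNReal.ofReal_pos.mpr (by linarith)).ne' (by finiteness),
      ENNReal.toReal_ofReal (by linarith), dm_singleton]
    have h1 : w1 (n, s) ≠ 0 := w1_ne _
    have h2 : w1 (n, s) ≠ ⊤ := by
      unfold w1; finiteness
    have h3 : ‖(hgt p n : ℂ) / 3‖ₑ = w1 (n, s) ^ (-(1 / p)) * 3⁻¹ := by
      rw [← ofReal_norm, norm_div, Complex.norm_real, Real.norm_of_nonneg (hgt_pos p n).le,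
        div_eq_mul_inv, ENNReal.ofReal_mul (hgt_pos p n).le]
      congr 1
      · unfold hgt w1
        rw [← ENNReal.ofReal_rpow_of_pos (by positivity), ENNReal.ofReal_pow (by norm_num)]
        congr 2
        rw [ENNReal.ofReal_div_of_pos (by norm_num)]
        simp
      · rw [ENNReal.ofReal_inv_of_pos (by norm_num)]
        norm_num
    rw [h3, mul_comm, ← mul_assoc, ← ENNReal.rpow_add _ _ h1 h2]
    have h4 : 1 / q + -(1 / p) = 1 - 1 / p - (1 - 1 / q) := by ring
    rw [h4]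
    norm_num
  refine ⟨?_, fun _ => Nat.zero_le _, fun j => ?_, fun j => ?_, fun j => ?_, fun j => ?_, ?_⟩
  · rw [condExp0_blk]; rfl
  · change @MeasurableSet X inferInstance _
    exact MeasurableSet.of_discrete
  · by_cases h0 : j = 0
    · simp only [h0, if_true]
      exact Set.support_indicator_subset
    · by_cases h1 : j = 1
      · simp only [h1, if_true, one_ne_zero, if_false]
        exact Set.support_indicator_subset
      · simp [h0, h1]
  · exact (Measurable.of_discrete).aestronglyMeasurable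
  · by_cases h0 : j = 0
    · simp only [h0, if_true]
      exact hsize true
    · by_cases h1 : j = 1
      · simp only [h1, if_true, one_ne_zero, if_false]
        exact hsize false
      · simp [h0, h1]
  · apply tendsto_const_nhds.congr'
    filter_upwards [eventually_ge_atTop 2] with N hN
    have h1 : ∑ j ∈ Finset.range N,
        (if j = 0 then (3 : ℂ) else if j = 1 then -3 else 0) •
          (if j = 0 then atm p n true else if j = 1 then atm p n false else 0) = blk p n := by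
      obtain ⟨M, rfl⟩ := Nat.exists_eq_add_of_le hN
      rw [add_comm, Finset.sum_range_succ', Finset.sum_range_succ']
      simp [blk, add_comm]
    rw [h1, sub_self, eLpNorm_zero]

lemma not_aesm_blk (p : ℝ) (n : ℕ) : ¬ AEStronglyMeasurable[F1 0] (blk p n) (dm w1) := by
  rintro ⟨g, hg, hbg⟩
  rw [EventuallyEq, ae_iff_all w1_ne] at hbg
  have h0 : (F1 0 : MeasurableSpace X) = ⊥ := rfl
  have h1 : @MeasurableSet X ⊥ (g ⁻¹' {g (n, true)}) := by
    have := hg.measurable (measurableSet_singleton (g (n, true)))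
    rwa [h0] at this
  rw [MeasurableSpace.measurableSet_bot_iff] at h1
  have h2 : (n, true) ∈ g ⁻¹' {g (n, true)} := by simp
  rcases h1 with h1 | h1
  · rw [h1] at h2; exact h2
  · have h3 : (n, false) ∈ g ⁻¹' {g (n, true)} := by rw [h1]; trivial
    have h4 : g (n, false) = g (n, true) := h3
    rw [← hbg, ← hbg] at h4
    have h5 := hgt_pos p n
    simp [blk, atm] at h4
    have h6 : ((hgt p n : ℝ) : ℂ) ≠ 0 := by exact_mod_cast h5.ne'
    have h7 : (2 : ℂ) * (hgt p n : ℂ) = 0 := by linear_combination -h4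
    simp [h6] at h7

lemma atb_blk_le {p q : ℝ} (hp : 0 < p) (hq : 1 < q) (n : ℕ) :
    atbNorm (dm w1) F1 p q (blk p n) ≤ 6 := by
  classical
  have hrep := isRep_blk (p := p) hq n
  have hblk : blockNorm (dm w1) F1 p q (blk p n) ≤ 6 := by
    unfold blockNorm
    rw [if_neg (not_aesm_blk p n)]
    refine iInf_le_of_le 0 (iInf_le_of_le _ (iInf_le_of_le _ (iInf_le_of_le _
      (iInf_le_of_le _ (iInf_le_of_le hrep ?_)))))
    rw [tsum_eq_sum (s := Finset.range 2)]
    · rw [Finset.sum_range_succ, Finset.sum_range_one]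
      have h3 : ‖(3 : ℂ)‖ₑ = 3 := by
        rw [← ofReal_norm]
        norm_num
      simp only [if_true, one_ne_zero, if_false, enorm_neg, h3]
      norm_num
    · intro j hj
      have h0 : j ≠ 0 := by rintro rfl; simp at hj
      have h1 : j ≠ 1 := by rintro rfl; simp at hj
      simp [h0, h1]
  have hzero : AEStronglyMeasurable[F1 0] (0 : X → ℂ) (dm w1) :=
    ⟨0, stronglyMeasurable_zero, EventuallyEq.rfl⟩
  have hz : blockNorm (dm w1) F1 p q (0 : X → ℂ) = 0 := by
    unfold blockNorm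
    rw [if_pos hzero, eLpNorm_zero]
  unfold atbNorm
  refine iInf_le_of_le (fun i => if i = 0 then blk p n else 0) (iInf_le_of_le ?_
    (iInf_le_of_le ?_ ?_))
  · intro i
    by_cases hi : i = 0
    · simp only [hi, if_true]
      exact ⟨integrable_blk p n, Or.inr ⟨_, _, _, _, _, hrep⟩⟩
    · simp only [hi, if_false]
      exact ⟨integrable_zero _ _ _, Or.inl hzero⟩
  · apply tendsto_const_nhds.congr'
    filter_upwards [eventually_ge_atTop 1] with N hN
    have h1 : ∑ i ∈ Finset.range N, (if i = 0 then blk p n else 0) = blk p n := by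
      rw [Finset.sum_ite_eq' (Finset.range N) 0 fun _ => blk p n,
        if_pos (Finset.mem_range.mpr hN)]
    rw [h1, sub_self, eLpNorm_zero]
  · rw [tsum_eq_single 0]
    · simp only [if_true]
      rw [← ENNReal.rpow_mul, mul_one_div_cancel hp.ne', ENNReal.rpow_one]
      exact hblk
    · intro i hi
      simp only [hi, if_false]
      rw [hz, ENNReal.zero_rpow_of_pos hp]

/-- `E_2 b` on the two halves -/
lemma condExp1_blk (p : ℝ) (n : ℕ) (x : X) :
    ((dm w1)[blk p n | F1 1]) x = if x.2 then ((2 * (1 / 2) ^ (n + 2) * hgt p n : ℝ) : ℂ)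
      else ((-(2 * (1 / 2) ^ (n + 2) * hgt p n) : ℝ) : ℂ) := by
  set g := (dm w1)[blk p n | F1 1] with hg
  have hle := F1.le 1
  have hmeas : StronglyMeasurable[F1 1] g := stronglyMeasurable_condExp
  have hconst : ∀ y : X, y.2 = x.2 → g y = g x := fun y hy =>
    const_fibre (π := (Prod.snd : X → Bool)) hmeas.measurable hy
  set S : Set X := Prod.snd ⁻¹' {x.2} with hS
  have hSm : MeasurableSet[F1 1] S := ⟨{x.2}, trivial, rfl⟩
  have h1 : ∫ y in S, g y ∂(dm w1) = ∫ y in S, blk p n y ∂(dm w1) :=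
    setIntegral_condExp hle (integrable_blk p n) hSm
  have h2 : ∫ y in S, g y ∂(dm w1) = ((dm w1).real S : ℂ) * g x := by
    have : ∫ y in S, g y ∂(dm w1) = ∫ y in S, g x ∂(dm w1) :=
      setIntegral_congr_fun (MeasurableSet.of_discrete) fun y hy => hconst y hy
    rw [this, setIntegral_const]
    simp
  have h3 : (dm w1).real S = 1 / 2 := by
    rw [measureReal_def, dm_apply, ENNReal.tsum_prod']
    have : ∀ a : ℕ, ∑' b : Bool, w1 (a, b) * S.indicator 1 (a, b) = (1 / 2) ^ (a + 2) := by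
      intro a
      rw [tsum_bool]
      rcases hx : x.2 <;> simp [hS, w1, hx]
    simp_rw [this]
    have h4 : ∑' a : ℕ, (1 / 2 : ℝ≥0∞) ^ (a + 2) = 1 / 2 := by
      have : ∀ a : ℕ, (1 / 2 : ℝ≥0∞) ^ (a + 2) = (1 / 2) ^ (a + 1) * (1 / 2) := fun a => pow_succ _ _
      simp_rw [this]
      rw [ENNReal.tsum_mul_right, geom_half, one_mul]
    rw [h4]
    simp
  have h5 : ∀ s, ∫ y in S, atm p n s y ∂(dm w1) =
      if s = x.2 then (((1 / 2) ^ (n + 2) * (hgt p n / 3) : ℝ) : ℂ) else 0 := by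
    intro s
    rw [setIntegral_atm, measureReal_restrict_apply (MeasurableSet.of_discrete)]
    by_cases hs : s = x.2
    · have : ({(n, s)} : Set X) ∩ S = {(n, s)} := by
        rw [inter_eq_left]
        intro y hy
        rw [mem_singleton_iff] at hy
        subst hy
        exact hs
      rw [this, w1_real, if_pos hs]
      simp
    · have : ({(n, s)} : Set X) ∩ S = ∅ := by
        ext y
        simp only [mem_inter_iff, mem_singleton_iff, mem_empty_iff_false, iff_false, not_and]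
        rintro rfl h
        exact hs h
      rw [this, if_neg hs]
      simp
  have e := integral_add (μ := (dm w1).restrict S) (f := fun x => (3 : ℂ) • atm p n true x)
    (g := fun x => (-3 : ℂ) • atm p n false x)
    ((integrable_atm p n true).smul (3 : ℂ)).integrableOn
    ((integrable_atm p n false).smul (-3 : ℂ)).integrableOn
  have e' : ∫ x in S, blk p n x ∂(dm w1) =
      ∫ x in S, ((3 : ℂ) • atm p n true x + (-3 : ℂ) • atm p n false x) ∂(dm w1) := rfl
  rw [h2, h3, e', e, integral_smul, integral_smul, h5, h5] at h1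
  rcases hx : x.2
  · rw [hx] at h1
    simp only [Bool.true_eq_false, if_false, if_true, smul_eq_mul, mul_zero, zero_add,
      Bool.false_eq_true] at h1 ⊢
    push_cast at h1 ⊢
    linear_combination 2 * h1
  · rw [hx] at h1
    simp only [Bool.false_eq_true, if_false, if_true, smul_eq_mul, mul_zero, add_zero] at h1 ⊢
    push_cast at h1 ⊢
    linear_combination 2 * h1

lemma hp_blk_ge {p : ℝ} (hp : 0 < p) (n : ℕ) :
    ENNReal.ofReal (2 * (1 / 2) ^ (n + 2) * hgt p n) ≤ hpNorm (dm w1) F1 p (blk p n) := by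
  unfold hpNorm
  set v : ℝ := 2 * (1 / 2) ^ (n + 2) * hgt p n with hv
  have hv0 : 0 < v := by have := hgt_pos p n; positivity
  have h1 : ∀ x, ENNReal.ofReal v ^ p ≤
      (∑' k, ‖mdiff (dm w1) F1 (blk p n) k x‖ₑ ^ 2) ^ (p / 2) := by
    intro x
    have h2 : ‖mdiff (dm w1) F1 (blk p n) 1 x‖ₑ = ENNReal.ofReal v := by
      have h3 : mdiff (dm w1) F1 (blk p n) 1 x = ((dm w1)[blk p n | F1 1]) x := by
        change ((dm w1)[blk p n | F1 1]) x - ((dm w1)[blk p n | F1 0]) x = _
        rw [condExp0_blk, sub_zero]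
      rw [h3, condExp1_blk, ← ofReal_norm]
      congr 1
      split_ifs
      · rw [Complex.norm_real, Real.norm_of_nonneg hv0.le]
      · rw [Complex.norm_real, norm_neg, Real.norm_of_nonneg hv0.le]
    have h4 : ENNReal.ofReal v ^ 2 ≤ ∑' k, ‖mdiff (dm w1) F1 (blk p n) k x‖ₑ ^ 2 := by
      rw [← h2]
      exact ENNReal.le_tsum (f := fun k => ‖mdiff (dm w1) F1 (blk p n) k x‖ₑ ^ 2) 1
    calc ENNReal.ofReal v ^ p = (ENNReal.ofReal v ^ 2) ^ (p / 2) := by
          rw [← ENNReal.rpow_natCast, ← ENNReal.rpow_mul]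
          congr 1
          push_cast
          ring
      _ ≤ _ := ENNReal.rpow_le_rpow h4 (by positivity)
  have h5 : ENNReal.ofReal v ^ p ≤
      ∫⁻ x, (∑' k, ‖mdiff (dm w1) F1 (blk p n) k x‖ₑ ^ 2) ^ (p / 2) ∂(dm w1) := by
    calc ENNReal.ofReal v ^ p = ∫⁻ _, ENNReal.ofReal v ^ p ∂(dm w1) := by
          rw [lintegral_const, measure_univ, mul_one]
      _ ≤ _ := lintegral_mono h1
  calc ENNReal.ofReal v = (ENNReal.ofReal v ^ p) ^ (1 / p) := by
        rw [← ENNReal.rpow_mul, mul_one_div_cancel hp.ne', ENNReal.rpow_one]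
    _ ≤ _ := ENNReal.rpow_le_rpow h5 (by positivity)

/-- No constant `C` satisfies `‖f‖_{H_p} ≤ C ‖f‖_{atb}` for the filtration `F1`. -/
lemma no_const {p q : ℝ} (hp0 : 0 < p) (hp1 : p < 1) (hq : 1 < q) (C : ℝ≥0) :
    ∃ f : X → ℂ, MemLp f ⊤ (dm w1) ∧
      C * atbNorm (dm w1) F1 p q f < hpNorm (dm w1) F1 p f := by
  have hα : 0 < 1 / p - 1 := by
    have : 1 < 1 / p := by rw [lt_div_iff₀ hp0]; linarith
    linarith
  have hv : ∀ n : ℕ, 2 * (1 / 2 : ℝ) ^ (n + 2) * hgt p n = 2 * ((2 : ℝ) ^ (1 / p - 1)) ^ (n + 2) := by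
    intro n
    unfold hgt
    have h2 : (0 : ℝ) < (1 / 2) ^ (n + 2) := by positivity
    rw [mul_assoc]
    congr 1
    nth_rewrite 1 [← Real.rpow_one ((1 / 2 : ℝ) ^ (n + 2))]
    rw [← Real.rpow_add h2, ← Real.rpow_natCast, ← Real.rpow_natCast, ← Real.rpow_mul (by norm_num),
      ← Real.rpow_mul (by norm_num), one_div, Real.inv_rpow (by norm_num), ← Real.rpow_neg (by norm_num)]
    congr 1
    ring
  have h1 : Tendsto (fun n : ℕ => 2 * ((2 : ℝ) ^ (1 / p - 1)) ^ (n + 2)) atTop atTop := by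
    apply Tendsto.const_mul_atTop (by norm_num)
    exact (tendsto_pow_atTop_atTop_of_one_lt
      (Real.one_lt_rpow (by norm_num) hα)).comp (tendsto_add_atTop_nat 2)
  obtain ⟨n, hn⟩ := (h1.eventually_gt_atTop (C * 6 : ℝ)).exists
  refine ⟨blk p n, ?_, ?_⟩
  · refine memLp_top_of_bound (Measurable.of_discrete).aestronglyMeasurable (2 * hgt p n) ?_
    refine Eventually.of_forall fun x => ?_
    have hh := hgt_pos p n
    have ha : ∀ s, ‖atm p n s x‖ ≤ hgt p n / 3 := by
      intro s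
      unfold atm
      by_cases hx : x ∈ ({(n, s)} : Set X)
      · rw [indicator_of_mem hx, norm_div, Complex.norm_real, Real.norm_of_nonneg hh.le]
        norm_num
      · rw [indicator_of_notMem hx, norm_zero]
        positivity
    calc ‖blk p n x‖ ≤ ‖(3 : ℂ) • atm p n true x‖ + ‖(-3 : ℂ) • atm p n false x‖ := norm_add_le _ _
      _ ≤ 3 * (hgt p n / 3) + 3 * (hgt p n / 3) := by
          rw [norm_smul, norm_smul, norm_neg]
          have h3 : ‖(3 : ℂ)‖ = 3 := by norm_num
          rw [h3]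
          gcongr
          · exact ha true
          · exact ha false
      _ = 2 * hgt p n := by ring
  · calc (C : ℝ≥0∞) * atbNorm (dm w1) F1 p q (blk p n) ≤ C * 6 := by
          gcongr; exact atb_blk_le hp0 hq n
      _ = ENNReal.ofReal (C * 6) := by
          rw [ENNReal.ofReal_mul (NNReal.coe_nonneg C), ENNReal.ofReal_coe_nnreal]
          norm_num
      _ < ENNReal.ofReal (2 * (1 / 2) ^ (n + 2) * hgt p n) := by
          rw [hv]
          exact (ENNReal.ofReal_lt_ofReal_iff_of_nonneg (by positivity)).mpr hn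
      _ ≤ _ := hp_blk_ge hp0 n

/-! ### Second question -/

/-- `β_n = 2^{-n-1}` -/
def bet (n : ℕ) : ℝ := (1 / 2) ^ (n + 1)

lemma bet_pos (n : ℕ) : 0 < bet n := by unfold bet; positivity

lemma cast_add_two_ne (n : ℕ) : ((n : ℂ) + 2) ≠ 0 := by
  have : ((n + 2 : ℕ) : ℂ) ≠ 0 := Nat.cast_ne_zero.mpr (by omega)
  push_cast at this
  exact this

/-- the bounded function which represents the functional -/
def g0 (p : ℝ) (x : X) : ℂ :=
  ((bet x.1 ^ (1 / p - 1) * (if x.2 then ((x.1 : ℝ) + 1) / (x.1 + 2) else -(1 / ((x.1 : ℝ) + 2))) :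
    ℝ) : ℂ)

lemma w2_real_true (n : ℕ) : (dm w2).real {(n, true)} = bet n * (1 / ((n : ℝ) + 2)) := by
  rw [measureReal_def, dm_singleton]
  simp only [w2, if_true, bet]
  rw [ENNReal.toReal_mul, ENNReal.toReal_pow, ENNReal.toReal_inv,
    ENNReal.toReal_add (by finiteness) (by finiteness)]
  simp

lemma w2_real_false (n : ℕ) : (dm w2).real {(n, false)} = bet n * (((n : ℝ) + 1) / (n + 2)) := by
  rw [measureReal_def, dm_singleton]
  simp only [w2, Bool.false_eq_true, if_false, bet]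
  rw [ENNReal.toReal_mul, ENNReal.toReal_pow]
  congr 1
  · simp
  · rw [ENNReal.toReal_div, ENNReal.toReal_add (by finiteness) (by finiteness),
      ENNReal.toReal_add (by finiteness) (by finiteness)]
    simp

/-- the blocks `B_n` -/
def Bn (n : ℕ) : Set X := Prod.fst ⁻¹' {n}

lemma setIntegral_Bn {f : X → ℂ} (hf : Integrable f (dm w2)) (n : ℕ) :
    ∫ x in Bn n, f x ∂(dm w2) = (bet n * (1 / ((n : ℝ) + 2)) : ℝ) • f (n, true) +
      (bet n * (((n : ℝ) + 1) / (n + 2)) : ℝ) • f (n, false) := by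
  have h1 : Bn n = {(n, true)} ∪ {(n, false)} := by
    ext x
    obtain ⟨a, b⟩ := x
    simp only [Bn, mem_preimage, mem_singleton_iff, mem_union, Prod.mk.injEq]
    cases b <;> simp
  rw [h1, setIntegral_union (by simp) (MeasurableSet.of_discrete) hf.integrableOn
    hf.integrableOn, integral_singleton, integral_singleton, w2_real_true, w2_real_false]

lemma condExp_top {f : X → ℂ} (hf : Integrable f (dm w2)) (k : ℕ) :
    (dm w2)[f | F2 (k + 1)] = f :=
  condExp_of_stronglyMeasurable (F2.le (k + 1)) (Measurable.of_discrete (f := f)).stronglyMeasurable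
    hf

/-- The first conditional expectation is constant on `B_n` and has the right mean. -/
lemma condExp_zero {f : X → ℂ} (hf : Integrable f (dm w2)) (n : ℕ) :
    ((dm w2)[f | F2 0]) (n, true) = ((dm w2)[f | F2 0]) (n, false) ∧
    ((dm w2)[f | F2 0]) (n, false) =
      ((1 / ((n : ℝ) + 2) : ℝ) : ℂ) * f (n, true) + (((n + 1) / ((n : ℝ) + 2) : ℝ) : ℂ) * f (n, false) := by
  set g := (dm w2)[f | F2 0] with hg
  have hle := F2.le 0
  have hmeas : StronglyMeasurable[F2 0] g := stronglyMeasurable_condExp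
  have hconst : g (n, true) = g (n, false) :=
    const_fibre (π := (Prod.fst : X → ℕ)) hmeas.measurable rfl
  have hSm : MeasurableSet[F2 0] (Bn n) := ⟨{n}, trivial, rfl⟩
  have h1 : ∫ y in Bn n, g y ∂(dm w2) = ∫ y in Bn n, f y ∂(dm w2) :=
    setIntegral_condExp hle hf hSm
  rw [setIntegral_Bn integrable_condExp, setIntegral_Bn hf, ← hg, hconst] at h1
  refine ⟨hconst, ?_⟩
  have hb : (bet n : ℂ) ≠ 0 := by exact_mod_cast (bet_pos n).ne'
  have hn := cast_add_two_ne n
  simp only [Complex.real_smul] at h1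
  push_cast at h1 ⊢
  field_simp at h1 ⊢
  linear_combination h1

lemma g0_bound {p : ℝ} (hp0 : 0 < p) (hp1 : p < 1) (x : X) : ‖g0 p x‖ ≤ 1 := by
  unfold g0
  rw [Complex.norm_real, norm_mul]
  have h1 : ‖bet x.1 ^ (1 / p - 1)‖ ≤ 1 := by
    rw [Real.norm_of_nonneg (by have := bet_pos x.1; positivity)]
    apply Real.rpow_le_one (bet_pos _).le
    · unfold bet
      exact pow_le_one₀ (by norm_num) (by norm_num)
    · have : 1 < 1 / p := by rw [lt_div_iff₀ hp0]; linarith
      linarith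
  have h2 : ‖(if x.2 then ((x.1 : ℝ) + 1) / (x.1 + 2) else -(1 / ((x.1 : ℝ) + 2)))‖ ≤ 1 := by
    have h3 : (0 : ℝ) < (x.1 : ℝ) + 2 := by positivity
    split_ifs
    · rw [Real.norm_of_nonneg (by positivity), div_le_one h3]; linarith
    · rw [norm_neg, Real.norm_of_nonneg (by positivity), div_le_one h3]
      have : (0 : ℝ) ≤ x.1 := by positivity
      linarith
  exact mul_le_one₀ h1 (norm_nonneg _) h2

/-- the functional -/
def Φ (p : ℝ) (f : X → ℂ) : ℂ := ∫ x, f x * g0 p x ∂(dm w2)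

lemma integrable_mul_g0 {p : ℝ} (hp0 : 0 < p) (hp1 : p < 1) {f : X → ℂ}
    (hf : MemLp f ⊤ (dm w2)) : Integrable (fun x => f x * g0 p x) (dm w2) := by
  have h1 : Integrable f (dm w2) := hf.integrable le_top
  refine h1.mul_bdd (c := 1) (Measurable.of_discrete).aestronglyMeasurable ?_
  exact Eventually.of_forall fun x => g0_bound hp0 hp1 x

lemma Φ_bound {p : ℝ} (hp0 : 0 < p) (hp1 : p < 1) {f : X → ℂ} (hf : MemLp f ⊤ (dm w2)) :
    ‖Φ p f‖ₑ ≤ ((2 : ℝ≥0) ^ (1 / p) : ℝ≥0) * hpNorm (dm w2) F2 p f := by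
  have hfi : Integrable f (dm w2) := hf.integrable le_top
  set h : X → ℂ := mdiff (dm w2) F2 f 1 with hh
  have hh' : ∀ x, h x = f x - ((dm w2)[f | F2 0]) x := by
    intro x
    change ((dm w2)[f | F2 (0 + 1)]) x - ((dm w2)[f | F2 0]) x = _
    rw [condExp_top hfi]
  -- the integral over `B_n`
  have hBn : ∀ n, ∫ x in Bn n, f x * g0 p x ∂(dm w2) =
      -(((bet n ^ (1 / p) * (((n : ℝ) + 1) / (n + 2)) : ℝ) : ℂ) * h (n, false)) := by
    intro n
    rw [setIntegral_Bn (integrable_mul_g0 hp0 hp1 hf)]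
    obtain ⟨h1, h2⟩ := condExp_zero hfi n
    rw [hh' (n, false), h2]
    have hb : bet n ^ (1 / p) = bet n ^ (1 / p - 1) * bet n := by
      rw [← Real.rpow_add_one (bet_pos n).ne']
      congr 1; ring
    have hn := cast_add_two_ne n
    rw [hb]
    simp only [g0, Complex.real_smul, if_true, Bool.false_eq_true, if_false]
    push_cast
    field_simp
    ring
  have hUn : (⋃ n, Bn n) = univ := by
    ext x; simp [Bn]
  have hdis : Pairwise (Function.onFun Disjoint Bn) := by
    intro i j hij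
    rw [Function.onFun, Set.disjoint_left]
    intro x hx hx'
    exact hij (hx.symm.trans hx')
  have h1 : Φ p f = ∑' n, ∫ x in Bn n, f x * g0 p x ∂(dm w2) := by
    unfold Φ
    rw [← integral_iUnion (fun n => MeasurableSet.of_discrete) hdis
      (integrable_mul_g0 hp0 hp1 hf).integrableOn, hUn, Measure.restrict_univ]
  have h2 : ‖Φ p f‖ₑ ≤ ∑' n, ENNReal.ofReal (bet n ^ (1 / p)) * ‖h (n, false)‖ₑ := by
    rw [h1]
    refine enorm_tsum_le_tsum_enorm.trans (ENNReal.tsum_le_tsum fun n => ?_)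
    rw [hBn, enorm_neg, enorm_mul]
    gcongr
    rw [← ofReal_norm, Complex.norm_real, Real.norm_of_nonneg
      (by have := bet_pos n; positivity)]
    apply ENNReal.ofReal_le_ofReal
    apply mul_le_of_le_one_right (by have := bet_pos n; positivity)
    rw [div_le_one (by positivity)]
    linarith
  have h3 : ∑' n, ENNReal.ofReal (bet n ^ (1 / p)) * ‖h (n, false)‖ₑ ≤
      (∑' n, ENNReal.ofReal (bet n) * ‖h (n, false)‖ₑ ^ p) ^ (1 / p) := by
    refine (tsum_le_rpow _ hp0 hp1.le).trans (le_of_eq ?_)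
    congr 1
    apply tsum_congr
    intro n
    rw [ENNReal.mul_rpow_of_nonneg _ _ hp0.le, ENNReal.ofReal_rpow_of_pos
      (by have := bet_pos n; positivity), ← Real.rpow_mul (bet_pos n).le,
      one_div_mul_cancel hp0.ne', Real.rpow_one]
  have h4 : ∑' n, ENNReal.ofReal (bet n) * ‖h (n, false)‖ₑ ^ p ≤
      2 * ∫⁻ x, (∑' k, ‖mdiff (dm w2) F2 f k x‖ₑ ^ 2) ^ (p / 2) ∂(dm w2) := by
    have h5 : ∀ x, ‖h x‖ₑ ^ p ≤ (∑' k, ‖mdiff (dm w2) F2 f k x‖ₑ ^ 2) ^ (p / 2) := by
      intro x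
      calc ‖h x‖ₑ ^ p = (‖h x‖ₑ ^ 2) ^ (p / 2) := by
            rw [← ENNReal.rpow_natCast, ← ENNReal.rpow_mul]
            congr 1
            push_cast
            ring
        _ ≤ _ := ENNReal.rpow_le_rpow
            (ENNReal.le_tsum (f := fun k => ‖mdiff (dm w2) F2 f k x‖ₑ ^ 2) 1) (by positivity)
    refine le_trans ?_ (mul_le_mul' le_rfl (lintegral_mono h5))
    rw [lintegral_dm, ENNReal.tsum_prod', ← ENNReal.tsum_mul_left]
    refine ENNReal.tsum_le_tsum fun n => ?_
    rw [tsum_bool, mul_add]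
    refine le_add_right ?_
    rw [← mul_assoc]
    gcongr
    have e : w2 (n, false) = ENNReal.ofReal (bet n * (((n : ℝ) + 1) / (n + 2))) := by
      rw [← w2_real_false, measureReal_def, dm_singleton, ENNReal.ofReal_toReal]
      simp only [w2]
      finiteness
    rw [e, ← ENNReal.ofReal_ofNat, ← ENNReal.ofReal_mul (by norm_num)]
    apply ENNReal.ofReal_le_ofReal
    have h6 : (1 : ℝ) ≤ 2 * (((n : ℝ) + 1) / (n + 2)) := by
      rw [← mul_div_assoc, le_div_iff₀ (by positivity)]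
      have : (0 : ℝ) ≤ n := by positivity
      linarith
    have := bet_pos n
    nlinarith
  refine h2.trans (h3.trans ?_)
  unfold hpNorm
  refine (ENNReal.rpow_le_rpow h4 (by positivity)).trans (le_of_eq ?_)
  rw [ENNReal.mul_rpow_of_nonneg _ _ (by positivity)]
  congr 1
  rw [ENNReal.coe_rpow_of_nonneg _ (by positivity)]
  norm_num

lemma isFunctional_Φ {p : ℝ} (hp0 : 0 < p) (hp1 : p < 1) : IsFunctional (dm w2) F2 p (Φ p) := by
  refine ⟨fun f g hf hg => ?_, fun c f hf => ?_, _, fun f hf => Φ_bound hp0 hp1 hf⟩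
  · unfold Φ
    rw [← integral_add (integrable_mul_g0 hp0 hp1 hf) (integrable_mul_g0 hp0 hp1 hg)]
    congr 1
    funext x
    simp only [Pi.add_apply]
    ring
  · unfold Φ
    rw [← integral_const_mul]
    congr 1
    funext x
    simp only [Pi.smul_apply, smul_eq_mul]
    ring

lemma lipNormLoc_g0 {p : ℝ} (q : ℝ) (hp0 : 0 < p) (hp1 : p < 1) :
    lipNormLoc (dm w2) F2 p q (g0 p) = ⊤ := by
  have hg0i : Integrable (g0 p) (dm w2) := integrable_disc (g0_bound hp0 hp1)
  have hα : 0 < 1 / p - 1 := by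
    have : 1 < 1 / p := by rw [lt_div_iff₀ hp0]; linarith
    linarith
  have hm : ∀ n, mdiff (dm w2) F2 (g0 p) 1 (n, true) = g0 p (n, true) := by
    intro n
    change ((dm w2)[g0 p | F2 (0 + 1)]) (n, true) - ((dm w2)[g0 p | F2 0]) (n, true) = _
    obtain ⟨h1, h2⟩ := condExp_zero hg0i n
    rw [condExp_top hg0i, h1, h2]
    have hn := cast_add_two_ne n
    simp only [g0, if_true, Bool.false_eq_true, if_false]
    push_cast
    field_simp
    ring
  have key : ∀ n : ℕ, ENNReal.ofReal (((n : ℝ) + 2) ^ (1 / p - 1) / 2) ≤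
      lipNormLoc (dm w2) F2 p q (g0 p) := by
    intro n
    have hA : (dm w2) {(n, true)} ≠ 0 := by rw [dm_singleton]; exact w2_ne _
    have hAt : (dm w2) {(n, true)} ≠ ⊤ := measure_ne_top _ _
    have hAr : (dm w2) {(n, true)} = ENNReal.ofReal (bet n * (1 / ((n : ℝ) + 2))) := by
      rw [← w2_real_true, measureReal_def, ENNReal.ofReal_toReal hAt]
    have h1 : ‖g0 p (n, true)‖ₑ ≤
        eLpNorm (mdiff (dm w2) F2 (g0 p) 1) ⊤ ((dm w2).restrict {(n, true)}) := by
      rw [eLpNorm_exponent_top, ← hm n]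
      have h2 := ae_le_eLpNormEssSup (f := mdiff (dm w2) F2 (g0 p) 1)
        (μ := (dm w2).restrict {(n, true)})
      rw [ae_restrict_iff' (MeasurableSet.of_discrete), ae_iff_all w2_ne] at h2
      exact h2 (n, true) rfl
    have h3 : ENNReal.ofReal (((n : ℝ) + 2) ^ (1 / p - 1) / 2) ≤
        (dm w2) {(n, true)} ^ (1 - 1 / p) * ‖g0 p (n, true)‖ₑ := by
      have hb := bet_pos n
      have hn2 : (0 : ℝ) < (n : ℝ) + 2 := by positivity
      rw [hAr, ENNReal.ofReal_rpow_of_pos (by positivity), ← ofReal_norm,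
        ← ENNReal.ofReal_mul (by positivity)]
      apply ENNReal.ofReal_le_ofReal
      simp only [g0, if_true]
      rw [Complex.norm_real, Real.norm_of_nonneg (by positivity), Real.mul_rpow hb.le (by positivity),
        one_div ((n : ℝ) + 2), Real.inv_rpow hn2.le, ← Real.rpow_neg hn2.le]
      have e1 : bet n ^ (1 - 1 / p) * bet n ^ (1 / p - 1) = 1 := by
        rw [← Real.rpow_add hb]
        simp
      have e2 : -(1 - 1 / p) = 1 / p - 1 := by ring
      rw [e2]
      have e3 : bet n ^ (1 - 1 / p) * ((n : ℝ) + 2) ^ (1 / p - 1) *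
          (bet n ^ (1 / p - 1) * (((n : ℝ) + 1) / (n + 2))) =
          (bet n ^ (1 - 1 / p) * bet n ^ (1 / p - 1)) * (((n : ℝ) + 2) ^ (1 / p - 1) *
            (((n : ℝ) + 1) / (n + 2))) := by ring
      rw [e3, e1, one_mul, div_eq_mul_inv]
      apply mul_le_mul_of_nonneg_left _ (by positivity)
      rw [le_div_iff₀ hn2]
      have : (0 : ℝ) ≤ n := by positivity
      linarith
    refine h3.trans ?_
    unfold lipNormLoc
    refine le_iSup_of_le 1 (le_iSup_of_le {(n, true)} (le_iSup_of_le ?_ (le_iSup_of_le hA ?_)))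
    · change @MeasurableSet X inferInstance _
      exact MeasurableSet.of_discrete
    · gcongr
      exact h1.trans le_add_self
  refine ENNReal.eq_top_of_forall_nnreal_le fun r => ?_
  have h1 : Tendsto (fun n : ℕ => ((n : ℝ) + 2) ^ (1 / p - 1) / 2) atTop atTop := by
    apply Tendsto.atTop_div_const (by norm_num)
    exact (tendsto_rpow_atTop hα).comp
      (tendsto_atTop_add_const_right _ _ tendsto_natCast_atTop_atTop)
  obtain ⟨n, hn⟩ := (h1.eventually_gt_atTop (r : ℝ)).exists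
  refine le_trans ?_ (key n)
  rw [← ENNReal.ofReal_coe_nnreal]
  exact ENNReal.ofReal_le_ofReal hn.le

lemma eq_g0 {p : ℝ} {g : X → ℂ}
    (h : ∀ f : X → ℂ, MemLp f ⊤ (dm w2) → Φ p f = ∫ x, f x * g x ∂(dm w2)) : g = g0 p := by
  classical
  funext y
  set f : X → ℂ := indicator {y} fun _ => 1 with hf
  have hfm : MemLp f ⊤ (dm w2) := by
    refine memLp_top_of_bound (Measurable.of_discrete).aestronglyMeasurable 1 ?_
    refine Eventually.of_forall fun x => ?_
    by_cases hx : x ∈ ({y} : Set X)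
    · rw [hf, indicator_of_mem hx]; simp
    · rw [hf, indicator_of_notMem hx]; simp
  have h1 := h f hfm
  have h2 : ∀ k : X → ℂ, ∫ x, f x * k x ∂(dm w2) = (dm w2).real {y} • k y := by
    intro k
    have : (fun x => f x * k x) = indicator {y} k := by
      funext x
      by_cases hx : x ∈ ({y} : Set X)
      · rw [hf, indicator_of_mem hx, indicator_of_mem hx, one_mul]
      · rw [hf, indicator_of_notMem hx, indicator_of_notMem hx, zero_mul]
    rw [this, integral_indicator (MeasurableSet.of_discrete), integral_singleton]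
  unfold Φ at h1
  rw [h2, h2] at h1
  have h3 : (dm w2).real {y} ≠ 0 := by
    rw [measureReal_def, dm_singleton]
    refine ENNReal.toReal_ne_zero.mpr ⟨w2_ne y, ?_⟩
    rw [← dm_singleton w2 y]
    exact measure_ne_top _ _
  exact (smul_right_injective ℂ h3 h1).symm

lemma lipNormLoc_le (μ : Measure X) (ℱ : Filtration ℕ (inferInstance : MeasurableSpace X))
    (p q : ℝ) (g : X → ℂ) : lipNormLoc μ ℱ p q g ≤ lipNorm μ ℱ p q g := by
  unfold lipNormLoc lipNorm
  refine iSup_mono fun k => iSup_mono fun A => iSup_mono fun _ => iSup_mono fun _ => ?_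
  gcongr
  exact Measure.restrict_le_self

/-- **Both questions have a negative answer, for all `0 < p < 1 < q < ∞`.**
(1) There is a filtered probability space such that no constant `C` satisfies
`‖f‖_{H_p} ≤ C ‖f‖_{atb}` for all `f ∈ L_∞`.
(2) There is a filtered probability space and a continuous linear functional on `H_p(Ω)` which is
not given by any element `g` of `Λ_{p,q}(Ω)` (not even if `‖dg_k‖_∞` in the definition of the
norm of `Λ_{p,q}` is replaced by the smaller `‖dg_k‖_{L_∞(A)}`). -/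
theorem result (p q : ℝ) (hp0 : 0 < p) (hp1 : p < 1) (hq : 1 < q) :
    (∃ (Ω : Type) (m : MeasurableSpace Ω) (μ : Measure Ω) (ℱ : Filtration ℕ m),
      IsProbabilityMeasure μ ∧ (⨆ k, ℱ k = m) ∧
      ∀ C : ℝ≥0, ∃ f : Ω → ℂ, MemLp f ⊤ μ ∧ C * atbNorm μ ℱ p q f < hpNorm μ ℱ p f) ∧
    (∃ (Ω : Type) (m : MeasurableSpace Ω) (μ : Measure Ω) (ℱ : Filtration ℕ m),
      IsProbabilityMeasure μ ∧ (⨆ k, ℱ k = m) ∧
      ∃ Φ : (Ω → ℂ) → ℂ, IsFunctional μ ℱ p Φ ∧
        ∀ g : Ω → ℂ, Integrable g μ → (lipNorm μ ℱ p q g < ⊤ ∨ lipNormLoc μ ℱ p q g < ⊤) →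
          ∃ f : Ω → ℂ, MemLp f ⊤ μ ∧ Φ f ≠ ∫ ω, f ω * g ω ∂μ) := by
  refine ⟨⟨X, inferInstance, dm w1, F1, inferInstance, sup_F1, fun C => no_const hp0 hp1 hq C⟩,
    ⟨X, inferInstance, dm w2, F2, inferInstance, sup_F2, Φ p, isFunctional_Φ hp0 hp1, ?_⟩⟩
  intro g _ hg
  by_contra hcon
  push Not at hcon
  have h1 := eq_g0 hcon
  subst h1
  have h2 := lipNormLoc_g0 q hp0 hp1
  rcases hg with hg | hg
  · have := (lipNormLoc_le (dm w2) F2 p q (g0 p)).trans_lt hg
    rw [h2] at this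
    exact lt_irrefl _ this
  · rw [h2] at hg
    exact lt_irrefl _ hg

end Pool.Agent.Results.MP_fbca0c_an.AtomicBlocks
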